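import Mathlib
import Pool.Agent.H587Z.Tree.Defs
import Pool.Agent.H587Z.Tree.Main

set_option autoImplicit false

universe u

theorem Pool.Agent.Results.MP_c1fc37_lc.ANoSuccessor.result (μ : Cardinal.{u})
    (hμ : Cardinal.aleph0 ≤ μ)
    (P : Set (Set (Pool.Agent.H587Z.Tree.Node (Order.succ μ).ord.ToType)))
    (hne : P.Nonempty) (hP : Pool.Agent.H587Z.Tree.IsTreeForcing P) :
    ¬ (Pool.Agent.H587Z.Tree.IsClosedForcing P ∧ Pool.Agent.H587Z.Tree.IsBounding P ∧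
      Pool.Agent.H587Z.Tree.IsCC P) :=
  fun h => Pool.Agent.H587Z.Tree.succ_case μ hμ P hne hP h.1 h.2.1 h.2.2
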